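import Mathlib

/-!
# The maximal height of divisors of `x ^ (p q ^ b) - 1` for `b ≥ 3`

Let `p < q` be odd primes, `b ≥ 3`, and let `u` be the inverse of `q` modulo `p`, `0 < u < p`. The
divisor `Φ_p Φ_q Φ_(p q²) Φ_(q³)` of `x ^ (p q ^ b) - 1` has the coefficients `p u` and
`- p (p - u)`. So `B (p q ^ b) ≥ p max (u, p - u) ≥ p (p + 1) / 2 > p`.
-/

set_option autoImplicit false

open Polynomial

namespace Pool.Agent.Results.MP_7a0dfe_nt.StrictLowerBound

/-- The height of an integer polynomial: the largest absolute value of a coefficient. -/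
noncomputable def height (f : ℤ[X]) : ℕ := f.support.sup fun k => (f.coeff k).natAbs

/-- `B(n)`: the largest height of a divisor of `x ^ n - 1` in `ℤ[x]`. -/
noncomputable def B (n : ℕ) : ℕ := sSup {h : ℕ | ∃ f : ℤ[X], f ∣ X ^ n - 1 ∧ height f = h}

lemma natAbs_coeff_le_height (f : ℤ[X]) (k : ℕ) : (f.coeff k).natAbs ≤ height f := by
  by_cases hk : k ∈ f.support
  · exact Finset.le_sup (f := fun k => (f.coeff k).natAbs) hk
  · rw [notMem_support_iff.1 hk]
    simp

lemma bddAbove (n : ℕ) (hn : 0 < n) :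
    BddAbove {h : ℕ | ∃ f : ℤ[X], f ∣ X ^ n - 1 ∧ height f = h} := by
  have hne : (X ^ n - 1 : ℤ[X]) ≠ 0 := (monic_X_pow_sub_C (1 : ℤ) hn.ne').ne_zero
  have hu : Function.Surjective (Units.map (C : ℤ →+* ℤ[X]).toMonoidHom) := by
    intro v
    obtain ⟨r, hr, hrv⟩ := isUnit_iff.1 v.isUnit
    exact ⟨hr.unit, Units.ext hrv⟩
  have : Fintype (ℤ[X])ˣ := Fintype.ofSurjective _ hu
  have : Finite ({x : ℤ[X] // x ∣ X ^ n - 1}) :=
    (UniqueFactorizationMonoid.fintypeSubtypeDvd _ hne).finite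
  refine Set.Finite.bddAbove ?_
  refine (Set.finite_range fun x : {x : ℤ[X] // x ∣ X ^ n - 1} => height x.1).subset ?_
  rintro _ ⟨f, hf, rfl⟩
  exact ⟨⟨f, hf⟩, rfl⟩

lemma height_le_B {n : ℕ} (hn : 0 < n) {f : ℤ[X]} (hf : f ∣ X ^ n - 1) : height f ≤ B n :=
  le_csSup (bddAbove n hn) ⟨f, hf, rfl⟩

/-- `1 / (1 - x ^ d)` -/
noncomputable def P (d : ℕ) : PowerSeries ℤ := PowerSeries.mk fun n => if d ∣ n then 1 else 0

/-- `1 / (1 - x ^ d) ^ 2` -/
noncomputable def Q (d : ℕ) : PowerSeries ℤ :=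
  PowerSeries.mk fun n => if d ∣ n then ((n / d : ℕ) : ℤ) + 1 else 0

lemma P_mul {d : ℕ} (hd : 0 < d) : P d * (1 - PowerSeries.X ^ d) = 1 := by
  ext n
  rw [mul_sub, mul_one, map_sub, PowerSeries.coeff_mul_X_pow', P, PowerSeries.coeff_mk,
    PowerSeries.coeff_mk, PowerSeries.coeff_one]
  by_cases h : d ≤ n
  · have h1 : d ∣ n - d ↔ d ∣ n := by
      rw [← Nat.dvd_add_self_right (n := n - d), Nat.sub_add_cancel h]
    have h2 : n ≠ 0 := by omega
    simp [h, h1, h2]
  · rcases Nat.eq_zero_or_pos n with rfl | h0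
    · simp [hd.ne']
    · have h1 : ¬ d ∣ n := fun h' => h (Nat.le_of_dvd h0 h')
      simp [h, h1, h0.ne']

lemma Q_mul {d : ℕ} (hd : 0 < d) : Q d * (1 - PowerSeries.X ^ d) = P d := by
  ext n
  rw [mul_sub, mul_one, map_sub, PowerSeries.coeff_mul_X_pow', P, Q, PowerSeries.coeff_mk,
    PowerSeries.coeff_mk, PowerSeries.coeff_mk]
  by_cases h : d ≤ n
  · have h1 : d ∣ n - d ↔ d ∣ n := by
      rw [← Nat.dvd_add_self_right (n := n - d), Nat.sub_add_cancel h]
    by_cases h2 : d ∣ n
    · have h3 : (n - d) / d = n / d - 1 := by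
        have := Nat.sub_mul_div n d 1
        simpa using this
      have h4 : 1 ≤ n / d := Nat.div_pos h hd
      simp only [h, h1, h2, if_true, h3]
      push_cast [h4]
      ring
    · simp [h1, h2]
  · rcases Nat.eq_zero_or_pos n with rfl | h0
    · simp [hd.ne']
    · have h1 : ¬ d ∣ n := fun h' => h (Nat.le_of_dvd h0 h')
      simp [h, h1]

/-- the coefficients of `1 / ((1 - x ^ p) (1 - x ^ q) ^ 2)` -/
lemma coeff_PQ {p q k j : ℕ} (hp : 0 < p) (hq : 0 < q) (hpq : Nat.Coprime p q) (hj : j < p)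
    (hjk : q * j ≤ k) (hk : k < p * q) (hd : p ∣ k - q * j) :
    PowerSeries.coeff k (P p * Q q) = (j : ℤ) + 1 := by
  rw [PowerSeries.coeff_mul]
  rw [Finset.sum_eq_single (k - q * j, q * j)]
  · simp only [P, Q, PowerSeries.coeff_mk]
    rw [if_pos hd, if_pos (dvd_mul_right q j), Nat.mul_div_cancel_left _ hq, one_mul]
  · rintro ⟨a, b⟩ hab hne
    rw [Finset.HasAntidiagonal.mem_antidiagonal] at hab
    simp only [P, Q, PowerSeries.coeff_mk]
    by_cases h1 : p ∣ a
    · by_cases h2 : q ∣ b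
      · exfalso
        obtain ⟨i, rfl⟩ := h2
        obtain ⟨a', rfl⟩ := h1
        simp only at hab
        obtain ⟨c, hc⟩ := hd
        have hk2 : k = p * c + q * j := by omega
        -- p a' + q i = p c + q j
        have h3 : p ∣ j - i ∧ p ∣ i - j := by
          constructor
          · rcases Nat.le_total j i with h | h
            · rw [Nat.sub_eq_zero_of_le h]; exact dvd_zero _
            · refine hpq.dvd_of_dvd_mul_left ?_
              rw [Nat.mul_sub]
              refine (Nat.dvd_sub (dvd_mul_right p a') (dvd_mul_right p c)).trans ?_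
              exact (by omega : q * j - q * i = p * a' - p * c) ▸ dvd_rfl
          · rcases Nat.le_total i j with h | h
            · rw [Nat.sub_eq_zero_of_le h]; exact dvd_zero _
            · refine hpq.dvd_of_dvd_mul_left ?_
              rw [Nat.mul_sub]
              refine (Nat.dvd_sub (dvd_mul_right p c) (dvd_mul_right p a')).trans ?_
              exact (by omega : q * i - q * j = p * c - p * a') ▸ dvd_rfl
        have hi : i < p := by
          by_contra hcon
          push Not at hcon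
          have := Nat.mul_le_mul_left q hcon
          rw [mul_comm q p] at this
          omega
        have h4 : j - i = 0 := Nat.eq_zero_of_dvd_of_lt h3.1 (by omega)
        have h5 : i - j = 0 := Nat.eq_zero_of_dvd_of_lt h3.2 (by omega)
        have h6 : i = j := by omega
        subst h6
        apply hne
        ext
        · simp only; omega
        · rfl
      · simp [h2]
    · simp [h1]
  · intro h
    exfalso
    apply h
    rw [Finset.HasAntidiagonal.mem_antidiagonal]
    omega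

/-- the second factor `Φ_(pq) Φ_(q²)` -/
noncomputable def G (p q : ℕ) : ℤ[X] := cyclotomic (p * q) ℤ * cyclotomic (q ^ 2) ℤ

lemma G_mul {p q : ℕ} (hp : p.Prime) (hq : q.Prime) (hpq : p < q) :
    G p q * ((1 - X ^ p) * ((1 - X ^ q) * (1 - X ^ q))) =
      (1 - X) * ((1 - X ^ (p * q)) * (1 - X ^ (q ^ 2))) := by
  have : Fact p.Prime := ⟨hp⟩
  have : Fact q.Prime := ⟨hq⟩
  have h1 : cyclotomic p ℤ * (X - 1) = X ^ p - 1 := cyclotomic_prime_mul_X_sub_one ℤ p
  have h3 : cyclotomic (p * q) ℤ * (cyclotomic p ℤ * (X ^ q - 1)) = X ^ (p * q) - 1 := by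
    have h := congrArg (expand ℤ q) h1
    have hdiv : ¬ q ∣ p := fun h => absurd (Nat.le_of_dvd hp.pos h) (by omega)
    rw [map_mul, cyclotomic_expand_eq_cyclotomic_mul hq hdiv] at h
    simp only [map_sub, map_pow, expand_X, map_one] at h
    rw [← mul_assoc, h, ← pow_mul, mul_comm q p]
  have h4 : cyclotomic (q ^ 2) ℤ * (X ^ q - 1) = X ^ (q ^ 2) - 1 := by
    have := cyclotomic_prime_pow_mul_X_pow_sub_one ℤ q 1
    rwa [pow_one] at this
  have h5 : cyclotomic (p * q) ℤ * ((X ^ p - 1) * (X ^ q - 1)) = (X - 1) * (X ^ (p * q) - 1) := by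
    rw [← h3, ← h1]
    ring
  have h6 : G p q * ((X ^ p - 1) * ((X ^ q - 1) * (X ^ q - 1))) =
      (X - 1) * ((X ^ (p * q) - 1) * (X ^ (q ^ 2) - 1)) := by
    rw [G, ← h4, ← mul_assoc (X - 1 : ℤ[X]), ← h5]
    ring
  linear_combination -h6

lemma coeff_mul_one_sub_X_pow {f : PowerSeries ℤ} {n k : ℕ} (h : k < n) :
    PowerSeries.coeff k (f * (1 - PowerSeries.X ^ n)) = PowerSeries.coeff k f := by
  rw [mul_sub, mul_one, map_sub, PowerSeries.coeff_mul_X_pow', if_neg (by omega), sub_zero]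

/-- the coefficients of `Φ_(pq) Φ_(q²)` up to degree `p q` -/
lemma coeff_G {p q : ℕ} (hp : p.Prime) (hq : q.Prime) (hpq : p < q) {k : ℕ} (hk : k + 1 < p * q) :
    (G p q).coeff (k + 1) =
      PowerSeries.coeff (k + 1) (P p * Q q) - PowerSeries.coeff k (P p * Q q) := by
  have h1 : ((G p q : ℤ[X]) : PowerSeries ℤ) *
      ((1 - PowerSeries.X ^ p) * ((1 - PowerSeries.X ^ q) * (1 - PowerSeries.X ^ q))) =
      (1 - PowerSeries.X) * ((1 - PowerSeries.X ^ (p * q)) * (1 - PowerSeries.X ^ (q ^ 2))) := by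
    have := congrArg (fun f : ℤ[X] => (f : PowerSeries ℤ)) (G_mul hp hq hpq)
    simpa using this
  have h2 : ((G p q : ℤ[X]) : PowerSeries ℤ) =
      P p * Q q * (1 - PowerSeries.X) * (1 - PowerSeries.X ^ (p * q)) *
        (1 - PowerSeries.X ^ (q ^ 2)) := by
    have hP := P_mul hp.pos
    have hQ := Q_mul hq.pos
    have hP' := P_mul hq.pos
    generalize ((G p q : ℤ[X]) : PowerSeries ℤ) = g at h1
    calc g = g * ((P p * (1 - PowerSeries.X ^ p)) *
          (P q * (1 - PowerSeries.X ^ q))) := by rw [hP, hP', one_mul, mul_one]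
      _ = g * ((P p * (1 - PowerSeries.X ^ p)) *
          ((Q q * (1 - PowerSeries.X ^ q)) * (1 - PowerSeries.X ^ q))) := by rw [hQ]
      _ = P p * Q q * (g *
          ((1 - PowerSeries.X ^ p) * ((1 - PowerSeries.X ^ q) * (1 - PowerSeries.X ^ q)))) := by
          ring
      _ = _ := by rw [h1]; ring
  have h3 : k + 1 < q ^ 2 := by nlinarith
  rw [← coeff_coe, h2, coeff_mul_one_sub_X_pow h3, coeff_mul_one_sub_X_pow hk, mul_sub, mul_one,
    map_sub, PowerSeries.coeff_succ_mul_X]

/-- the divisor `Φ_p Φ_q Φ_(p q²) Φ_(q³)` -/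
noncomputable def F (p q : ℕ) : ℤ[X] :=
  cyclotomic p ℤ * cyclotomic q ℤ * (cyclotomic (p * q ^ 2) ℤ * cyclotomic (q ^ 3) ℤ)

lemma F_eq {p q : ℕ} (hp : p.Prime) (hq : q.Prime) :
    F p q = (∑ i ∈ Finset.range p, X ^ i) * (∑ j ∈ Finset.range q, X ^ j) *
      expand ℤ q (G p q) := by
  have : Fact p.Prime := ⟨hp⟩
  have : Fact q.Prime := ⟨hq⟩
  rw [F, G, map_mul, cyclotomic_expand_eq_cyclotomic hq (dvd_mul_left q p),
    cyclotomic_expand_eq_cyclotomic hq (dvd_pow_self q two_ne_zero), cyclotomic_prime,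
    cyclotomic_prime, show p * q ^ 2 = p * q * q by ring, show q ^ 3 = q ^ 2 * q by ring]

lemma F_dvd {p q b : ℕ} (hp : p.Prime) (hq : q.Prime) (hpq : p < q) (hb : 3 ≤ b) :
    F p q ∣ X ^ (p * q ^ b) - 1 := by
  have hn : 0 < p * q ^ b := Nat.mul_pos hp.pos (pow_pos hq.pos b)
  have hcop : Nat.Coprime p q := (Nat.coprime_primes hp hq).2 hpq.ne
  have hq1 : 1 < q := hq.one_lt
  have h2 : q < q ^ 2 := by nlinarith
  have h3 : q ^ 2 < q ^ 3 := Nat.pow_lt_pow_right hq1 (by norm_num)
  have hnd : ∀ n, p * n ≠ q ^ 3 := by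
    intro n h
    have h4 : p ∣ q ^ 3 := ⟨n, h.symm⟩
    have h5 := (Nat.prime_dvd_prime_iff_eq hp hq).1 (hp.dvd_of_dvd_pow h4)
    omega
  have hpp : 1 < p := hp.one_lt
  rw [← prod_cyclotomic_eq_X_pow_sub_one hn ℤ]
  have hF : F p q = ∏ d ∈ ({p, q, p * q ^ 2, q ^ 3} : Finset ℕ), cyclotomic d ℤ := by
    rw [Finset.prod_insert, Finset.prod_insert, Finset.prod_insert, Finset.prod_singleton, F,
      mul_assoc]
    · rw [Finset.mem_singleton]
      exact hnd _
    · simp only [Finset.mem_insert, Finset.mem_singleton, not_or]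
      exact ⟨by nlinarith, by omega⟩
    · simp only [Finset.mem_insert, Finset.mem_singleton, not_or]
      exact ⟨hpq.ne, by nlinarith, by omega⟩
  rw [hF]
  refine Finset.prod_dvd_prod_of_subset _ _ _ ?_
  intro d hd
  rw [Nat.mem_divisors]
  refine ⟨?_, hn.ne'⟩
  have hq3 : q ^ 3 ∣ q ^ b := pow_dvd_pow q hb
  simp only [Finset.mem_insert, Finset.mem_singleton] at hd
  rcases hd with rfl | rfl | rfl | rfl
  · exact dvd_mul_right _ _
  · exact ((dvd_pow_self _ three_ne_zero).trans hq3).mul_left _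
  · exact mul_dvd_mul_left _ ((pow_dvd_pow q (by norm_num)).trans hq3)
  · exact hq3.mul_left _

lemma coeff_F {p q : ℕ} (hp : p.Prime) (hq : q.Prime) (hpq : p < q) (k : ℕ) :
    (F p q).coeff (k * q + (p - 1)) = p * (G p q).coeff k := by
  have hp1 : 1 < p := hp.one_lt
  rw [F_eq hp hq, Finset.sum_mul_sum, Finset.sum_mul, finsetSum_coeff]
  have key : ∀ i ∈ Finset.range p,
      ((∑ j ∈ Finset.range q, (X : ℤ[X]) ^ i * X ^ j) * expand ℤ q (G p q)).coeff
        (k * q + (p - 1)) = (G p q).coeff k := by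
    intro i hi
    rw [Finset.mem_range] at hi
    rw [Finset.sum_mul, finsetSum_coeff, Finset.sum_eq_single (p - 1 - i)]
    · rw [← pow_add, coeff_X_pow_mul', if_pos (by omega), coeff_expand hq.pos,
        show k * q + (p - 1) - (i + (p - 1 - i)) = k * q by omega,
        if_pos (dvd_mul_left q k), Nat.mul_div_cancel _ hq.pos]
    · intro j hj hne
      rw [Finset.mem_range] at hj
      rw [← pow_add, coeff_X_pow_mul']
      split_ifs with h
      · rw [coeff_expand hq.pos, if_neg]
        intro hd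
        -- q divides k q + (p - 1) - (i + j)
        rcases Nat.lt_or_ge (p - 1) (i + j) with h1 | h1
        · have h2 : q ∣ k * q - (k * q + (p - 1) - (i + j)) := Nat.dvd_sub (dvd_mul_left q k) hd
          have h3 : k * q - (k * q + (p - 1) - (i + j)) = i + j - (p - 1) := by omega
          rw [h3] at h2
          have := Nat.le_of_dvd (by omega) h2
          omega
        · have h2 : q ∣ k * q + (p - 1) - (i + j) - k * q := Nat.dvd_sub hd (dvd_mul_left q k)
          have h3 : k * q + (p - 1) - (i + j) - k * q = p - 1 - (i + j) := by omega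
          rw [h3] at h2
          have := Nat.le_of_dvd (by omega) h2
          omega
      · rfl
    · intro h
      exfalso
      apply h
      rw [Finset.mem_range]
      omega
  rw [Finset.sum_congr rfl key, Finset.sum_const, Finset.card_range, nsmul_eq_mul]

/-- For odd primes `p < q`, `b ≥ 3` and the inverse `u` of `q` modulo `p`,
`B(p q ^ b) ≥ p max(u, p - u)`. -/
lemma lower {p q b u : ℕ} (hp : p.Prime) (hq : q.Prime) (hpq : p < q) (hb : 3 ≤ b)
    (hu : u < p) (hqu : q * u ≡ 1 [MOD p]) : p * max u (p - u) ≤ B (p * q ^ b) := by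
  have hn : 0 < p * q ^ b := Nat.mul_pos hp.pos (pow_pos hq.pos b)
  have hcop : Nat.Coprime p q := (Nat.coprime_primes hp hq).2 hpq.ne
  have hp1 : 1 < p := hp.one_lt
  have hu0 : 0 < u := by
    rcases Nat.eq_zero_or_pos u with rfl | h
    · exfalso
      rw [mul_zero] at hqu
      have := (Nat.modEq_iff_dvd' (Nat.zero_le 1)).1 hqu
      have := Nat.le_of_dvd one_pos this
      omega
    · exact h
  have hle : height (F p q) ≤ B (p * q ^ b) := height_le_B hn (F_dvd hp hq hpq hb)
  refine le_trans ?_ hle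
  have hqu1 : 1 ≤ q * u := Nat.mul_pos hq.pos hu0
  have hdvd : p ∣ q * u - 1 := (Nat.modEq_iff_dvd' hqu1).1 hqu.symm
  rcases le_total (p - u) u with hmax | hmax
  · rw [max_eq_left hmax]
    -- the coefficient `u` of `G` in degree `(p - 1) q`
    obtain ⟨K, hK⟩ : ∃ K, (p - 1) * q = K + 1 := ⟨(p - 1) * q - 1, by
      have : 0 < (p - 1) * q := Nat.mul_pos (by omega) hq.pos
      omega⟩
    have hKpq : K + 1 < p * q := by
      rw [← hK]
      exact Nat.mul_lt_mul_of_pos_right (by omega) hq.pos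
    have e1 : PowerSeries.coeff (K + 1) (P p * Q q) = ((p - 1 : ℕ) : ℤ) + 1 := by
      refine coeff_PQ hp.pos hq.pos hcop (by omega) ?_ hKpq ?_
      · rw [mul_comm, hK]
      · rw [mul_comm q, hK, Nat.sub_self]; exact dvd_zero _
    have e2 : PowerSeries.coeff K (P p * Q q) = ((p - 1 - u : ℕ) : ℤ) + 1 := by
      have h1 : q * (p - 1 - u) + q * u = K + 1 := by
        rw [← Nat.mul_add, Nat.sub_add_cancel (by omega), mul_comm, hK]
      refine coeff_PQ hp.pos hq.pos hcop (by omega) (by omega) (by omega) ?_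
      have : K - q * (p - 1 - u) = q * u - 1 := by omega
      rw [this]
      exact hdvd
    have e3 : (G p q).coeff (K + 1) = u := by
      rw [coeff_G hp hq hpq hKpq, e1, e2]
      omega
    have := natAbs_coeff_le_height (F p q) ((K + 1) * q + (p - 1))
    rw [coeff_F hp hq hpq, e3, ← Nat.cast_mul, Int.natAbs_natCast] at this
    exact this
  · rw [max_eq_right hmax]
    -- the coefficient `-(p - u)` of `G` in a degree `p s` between `(p - 1) q` and `p q`
    obtain ⟨s, hs1, hs2⟩ : ∃ s, (p - 1) * q < p * s ∧ p * s < p * q := by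
      refine ⟨q - 1, ?_, Nat.mul_lt_mul_of_pos_left (by have := hq.pos; omega) hp.pos⟩
      rw [Nat.mul_sub, mul_one, Nat.sub_mul, one_mul]
      have : q ≤ p * q := Nat.le_mul_of_pos_left q hp.pos
      omega
    obtain ⟨K, hK⟩ : ∃ K, p * s = K + 1 := ⟨p * s - 1, by omega⟩
    rw [hK] at hs1 hs2
    have e1 : PowerSeries.coeff (K + 1) (P p * Q q) = ((0 : ℕ) : ℤ) + 1 := by
      refine coeff_PQ hp.pos hq.pos hcop hp.pos (by simp) hs2 ?_
      rw [mul_zero, Nat.sub_zero, ← hK]
      exact dvd_mul_right _ _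
    have e2 : PowerSeries.coeff K (P p * Q q) = ((p - u : ℕ) : ℤ) + 1 := by
      have h1 : q * (p - u) + q * u = p * q := by
        rw [← Nat.mul_add, Nat.sub_add_cancel (by omega), mul_comm]
      have h2 : q * (p - u) ≤ (p - 1) * q := by
        rw [mul_comm]
        exact Nat.mul_le_mul_right q (by omega)
      refine coeff_PQ hp.pos hq.pos hcop (by omega) (by omega) (by omega) ?_
      have h3 : K - q * (p - u) + p * q = p * s + (q * u - 1) := by omega
      have h4 : p ∣ K - q * (p - u) + p * q := by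
        rw [h3]
        exact dvd_add (dvd_mul_right _ _) hdvd
      exact (Nat.dvd_add_left (dvd_mul_right p q)).1 h4
    have e3 : (G p q).coeff (K + 1) = -((p - u : ℕ) : ℤ) := by
      rw [coeff_G hp hq hpq hs2, e1, e2]
      push_cast
      ring
    have := natAbs_coeff_le_height (F p q) ((K + 1) * q + (p - 1))
    rw [coeff_F hp hq hpq, e3, mul_neg, Int.natAbs_neg, ← Nat.cast_mul, Int.natAbs_natCast] at this
    exact this

/-- For all odd primes `p < q` and all `b ≥ 3` one has `B(p q ^ b) > p`; more precisely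
`B(p q ^ b) ≥ p max(u, p - u)`, where `u` is the inverse of `q` modulo `p`. -/
theorem result (p q b : ℕ) (hp : p.Prime) (hq : q.Prime) (hp2 : p ≠ 2) (hpq : p < q)
    (hb : 2 < b) :
    p < B (p * q ^ b) ∧
      ∀ u, u < p → q * u ≡ 1 [MOD p] → p * max u (p - u) ≤ B (p * q ^ b) := by
  refine ⟨?_, fun u hu hqu => lower hp hq hpq hb hu hqu⟩
  have hcop : Nat.Coprime q p := (Nat.coprime_primes hq hp).2 hpq.ne'
  obtain ⟨u, hu⟩ := Nat.exists_mul_mod_eq_one_of_coprime hcop hp.one_lt
  have h3 : 3 ≤ p := by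
    have := hp.two_le
    omega
  have hu' : q * u ≡ 1 [MOD p] := by
    rw [Nat.ModEq, hu.2, Nat.mod_eq_of_lt hp.one_lt]
  have h := lower hp hq hpq hb hu.1 hu'
  have h2 : 2 ≤ max u (p - u) := by
    by_contra hcon
    push Not at hcon
    have h4 := lt_of_le_of_lt (le_max_left u (p - u)) hcon
    have h5 := lt_of_le_of_lt (le_max_right u (p - u)) hcon
    omega
  nlinarith

end Pool.Agent.Results.MP_7a0dfe_nt.StrictLowerBound
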